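import Pool.Agent.H41.PS.Stm2

/-! Partial spread functions of minus type are bent (helper354, for helper41). -/

set_option autoImplicit false

namespace Pool.Agent.H354.PS.BENT

open Finset

/-- the sign -/
def chi (a : ZMod 2) : ℤ := (-1) ^ a.val

lemma chi_add (a b : ZMod 2) : chi (a + b) = chi a * chi b := by
  revert a b; decide

lemma chi_zero : chi 0 = 1 := by decide

lemma chi_ne (a : ZMod 2) (h : a ≠ 0) : chi a = -1 := by
  revert a; decide

lemma chi_eq (a : ZMod 2) : chi a = 1 - 2 * (if a = 1 then 1 else 0) := by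
  revert a; decide

variable {n : ℕ}

open Classical in
/-- the sum over a subspace -/
noncomputable def S (W : Submodule (ZMod 2) (Fin n → ZMod 2)) (y : Fin n → ZMod 2) : ℤ :=
  ∑ x ∈ univ.filter (fun x => x ∈ W), chi (x ⬝ᵥ y)

lemma S_zero (W : Submodule (ZMod 2) (Fin n → ZMod 2)) (y : Fin n → ZMod 2)
    (h : ∃ x0 ∈ W, x0 ⬝ᵥ y ≠ 0) : S W y = 0 := by
  classical
  obtain ⟨x0, hx0, hne⟩ := h
  have h1 : S W y = -S W y := by
    conv_lhs => rw [S]
    rw [Finset.sum_equiv (Equiv.addLeft (-x0)) (t := univ.filter (fun x => x ∈ W))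
      (g := fun x => chi ((x0 + x) ⬝ᵥ y))]
    · simp only [add_dotProduct, chi_add, chi_ne _ hne]
      rw [← Finset.mul_sum, S]
      ring
    · intro x
      simp only [mem_filter, mem_univ, true_and, Equiv.coe_addLeft]
      exact (W.add_mem_iff_right (W.neg_mem hx0)).symm
    · intro x _
      simp
  linarith

lemma S_one (W : Submodule (ZMod 2) (Fin n → ZMod 2)) (y : Fin n → ZMod 2)
    (h : ∀ x ∈ W, x ⬝ᵥ y = 0) : S W y = 2 ^ Module.finrank (ZMod 2) W := by
  classical
  have h1 : S W y = ((univ.filter (fun x => x ∈ W)).card : ℤ) := by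
    rw [S, Finset.card_eq_sum_ones]
    push_cast
    apply Finset.sum_congr rfl
    intro x hx
    rw [h x (mem_filter.1 hx).2, chi_zero]
  have h2 : (univ.filter (fun x => x ∈ W)).card = Fintype.card W := by
    rw [Fintype.card_subtype]
  rw [h1, h2, Module.card_eq_pow_finrank (K := ZMod 2) (V := W), ZMod.card]
  push_cast
  rfl

open Classical in
lemma S_le (W : Submodule (ZMod 2) (Fin n → ZMod 2)) (y : Fin n → ZMod 2) :
    S W y = if (∀ x ∈ W, x ⬝ᵥ y = 0) then 2 ^ Module.finrank (ZMod 2) W else 0 := by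
  split_ifs with h
  · exact S_one W y h
  · push Not at h
    exact S_zero W y h

theorem t_BENT : Pool.Agent.H41.PS.S_BENT := by
  classical
  intro k hk f E hrank hdisj hf y
  have hn : ∀ x, (-1 : ℤ) ^ (f x + ∑ i, x i * y i).val =
      chi (x ⬝ᵥ y) - 2 * ∑ i, (if x ∈ E i then chi (x ⬝ᵥ y) else 0) +
        (if x = 0 then 2 * 2 ^ (k - 1) else 0) := by
    intro x
    have e1 : (-1 : ℤ) ^ (f x + ∑ i, x i * y i).val = chi (f x) * chi (x ⬝ᵥ y) := by
      rw [← chi_add]; rfl
    rw [e1, chi_eq (f x)]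
    by_cases hx0 : x = 0
    · subst hx0
      have h1 : f 0 ≠ 1 := fun h => ((hf 0).1 h).1 rfl
      rw [if_neg h1, if_pos rfl]
      simp only [Submodule.zero_mem, if_true, zero_dotProduct, chi_zero]
      simp
    · rw [if_neg hx0]
      by_cases hx1 : ∃ i, x ∈ E i
      · have h1 : f x = 1 := (hf x).2 ⟨hx0, hx1⟩
        obtain ⟨i, hi⟩ := hx1
        rw [if_pos h1, Finset.sum_eq_single i, if_pos hi]
        · ring
        · intro j _ hj
          rw [if_neg]
          intro hxj
          apply hx0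
          have h2 : x ∈ E j ⊓ E i := ⟨hxj, hi⟩
          rw [hdisj j i hj] at h2
          exact (Submodule.mem_bot _).1 h2
        · intro h; exact absurd (mem_univ i) h
      · have h1 : f x ≠ 1 := fun h => hx1 ((hf x).1 h).2
        rw [if_neg h1, Finset.sum_eq_zero]
        · ring
        · intro i _
          rw [if_neg]
          exact fun h => hx1 ⟨i, h⟩
  simp only [hn]
  rw [Finset.sum_add_distrib, Finset.sum_sub_distrib, ← Finset.mul_sum, Finset.sum_comm,
    Finset.sum_ite_eq' univ (0 : Fin (2 * k) → ZMod 2), if_pos (mem_univ _)]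
  have hT : ∑ x : Fin (2 * k) → ZMod 2, chi (x ⬝ᵥ y) = S ⊤ y := by
    rw [S]
    simp
  have hS : ∀ i, ∑ x : Fin (2 * k) → ZMod 2, (if x ∈ E i then chi (x ⬝ᵥ y) else 0) =
      S (E i) y := by
    intro i
    rw [S, Finset.sum_filter]
  simp only [hT, hS]
  have hk2 : (2 : ℤ) * 2 ^ (k - 1) = 2 ^ k := by
    rw [← pow_succ', Nat.sub_add_cancel hk]
  rw [hk2]
  simp only [S_le, hrank]
  by_cases hy : y = 0
  · subst hy
    simp only [dotProduct_zero, implies_true, if_true]
    rw [finrank_top, Module.finrank_fin_fun, Finset.sum_const, Finset.card_univ, Fintype.card_fin,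
      nsmul_eq_mul]
    push_cast
    have h3 : (2 : ℤ) ^ (2 * k) - 2 * (2 ^ (k - 1) * 2 ^ k) + 2 ^ k = 2 ^ k := by
      rw [← mul_assoc, hk2, two_mul, pow_add]
      ring
    rw [h3]
    exact abs_of_nonneg (by positivity)
  · have h1 : ¬ (∀ x ∈ (⊤ : Submodule (ZMod 2) (Fin (2 * k) → ZMod 2)), x ⬝ᵥ y = 0) := by
      intro h
      apply hy
      funext i
      have := h (Pi.single i 1) Submodule.mem_top
      simpa using this
    rw [if_neg h1]
    by_cases hex : ∃ i, ∀ x ∈ E i, x ⬝ᵥ y = 0
    · obtain ⟨i, hi⟩ := hex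
      rw [Finset.sum_eq_single i, if_pos hi]
      · have : (0 : ℤ) - 2 * 2 ^ k + 2 ^ k = -2 ^ k := by ring
        rw [this, abs_neg]
        exact abs_of_nonneg (by positivity)
      · intro j _ hj
        rw [if_neg]
        intro hj2
        apply h1
        have h2 := Submodule.finrank_sup_add_finrank_inf_eq (E j) (E i)
        rw [hdisj j i hj, finrank_bot, hrank, hrank, add_zero] at h2
        have h3 : E j ⊔ E i = ⊤ := by
          apply Submodule.eq_top_of_finrank_eq
          rw [h2, Module.finrank_fin_fun]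
          ring
        intro x _
        have h4 : x ∈ E j ⊔ E i := by rw [h3]; exact Submodule.mem_top
        obtain ⟨a, ha, b, hb, rfl⟩ := Submodule.mem_sup.1 h4
        rw [add_dotProduct, hj2 a ha, hi b hb, add_zero]
      · intro h; exact absurd (mem_univ i) h
    · push Not at hex
      rw [Finset.sum_eq_zero]
      · simp
      · intro i _
        rw [if_neg]
        obtain ⟨x, hx, hxy⟩ := hex i
        exact fun h => hxy (h x hx)

end Pool.Agent.H354.PS.BENT
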